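import Mathlib

set_option autoImplicit false

/-!
# Partial DP-colouring from 2-fold covers: a graph with DP-chromatic number five

There is a graph `G` on 8 vertices (the complement of the disjoint union of a star with three leaves
and of two edges) with DP-chromatic number `5` and `α₂ = 3 < 2 * 8 / 5`: it has a 2-fold cover whose
largest independent sets have three vertices.
-/

namespace Pool.Agent.Results.MP_f6aace_co.EightVertices

/-- `(L, H)` is a cover of the graph `G`: the sets `L u` partition the vertices of `H`, each of them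
is complete in `H`, for adjacent `u`, `v` the edges of `H` between `L u` and `L v` form a matching
and for different nonadjacent `u`, `v` there are no edges between `L u` and `L v`. -/
structure IsCover {V W : Type} (G : SimpleGraph V) (H : SimpleGraph W) (L : V → Set W) : Prop where
  partition : ∀ a : W, ∃! u : V, a ∈ L u
  complete : ∀ u : V, ∀ a ∈ L u, ∀ b ∈ L u, a ≠ b → H.Adj a b
  matching : ∀ u v : V, G.Adj u v → ∀ a ∈ L u, ∀ b ∈ L v, ∀ c ∈ L v,
    H.Adj a b → H.Adj a c → b = c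
  nonadjacent : ∀ u v : V, u ≠ v → ¬ G.Adj u v → ∀ a ∈ L u, ∀ b ∈ L v, ¬ H.Adj a b

/-- The DP-chromatic number: the least `m` such that for every `m`-fold cover `(L, H)` of `G` the
graph `H` has an independent set with as many vertices as `G`. -/
noncomputable def chiDP {V : Type} (G : SimpleGraph V) : ℕ :=
  sInf {m : ℕ | ∀ (W : Type) [Finite W] (H : SimpleGraph W) (L : V → Set W), IsCover G H L →
    (∀ u, (L u).ncard = m) → ∃ I : Set W, H.IsIndepSet I ∧ I.ncard = Nat.card V}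

/-- The least independence number of the graphs `H` of the `t`-fold covers `(L, H)` of `G`. -/
noncomputable def alphaDP {V : Type} (t : ℕ) (G : SimpleGraph V) : ℕ :=
  sInf {a : ℕ | ∃ (W : Type) (_ : Finite W) (H : SimpleGraph W) (L : V → Set W), IsCover G H L ∧
    (∀ u, (L u).ncard = t) ∧ a = H.indepNum}

/-! ### Matchings between sets of three elements -/

theorem extend_bool : ∀ r : Fin 3 → Fin 3 → Bool,
    (∀ i j k, r i j = true → r i k = true → j = k) →
    (∀ i j k, r j i = true → r k i = true → j = k) →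
    ∃ σ : Equiv.Perm (Fin 3), ∀ i j, r i j = true → σ i = j := by
  decide +kernel

theorem extend (R : Fin 3 → Fin 3 → Prop) (h1 : ∀ i j k, R i j → R i k → j = k)
    (h2 : ∀ i j k, R j i → R k i → j = k) : ∃ σ : Equiv.Perm (Fin 3), ∀ i j, R i j → σ i = j := by
  classical
  obtain ⟨σ, hσ⟩ := extend_bool (fun i j => decide (R i j))
    (fun i j k hj hk => h1 i j k (by simpa using hj) (by simpa using hk))
    (fun i j k hj hk => h2 i j k (by simpa using hj) (by simpa using hk))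
  exact ⟨σ, fun i j h => hσ i j (by simpa using h)⟩

theorem wheel_perm : ∀ p q r s : Equiv.Perm (Fin 3), ∃ a b c d e : Fin 3,
    b ≠ a ∧ c ≠ a ∧ d ≠ a ∧ e ≠ a ∧ p b ≠ c ∧ q c ≠ d ∧ r d ≠ e ∧ s e ≠ b := by
  decide +kernel

/-- partial matchings -/
def Mat (R : Fin 3 → Fin 3 → Prop) : Prop :=
  (∀ i j k, R i j → R i k → j = k) ∧ ∀ i j k, R j i → R k i → j = k

theorem wheel {A B C D P Q R S : Fin 3 → Fin 3 → Prop} (hA : Mat A) (hB : Mat B) (hC : Mat C)
    (hD : Mat D) (hP : Mat P) (hQ : Mat Q) (hR : Mat R) (hS : Mat S) : ∃ a b c d e : Fin 3,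
    ¬ A a b ∧ ¬ B a c ∧ ¬ C a d ∧ ¬ D a e ∧ ¬ P b c ∧ ¬ Q c d ∧ ¬ R d e ∧ ¬ S e b := by
  obtain ⟨α, hα⟩ := extend A hA.1 hA.2
  obtain ⟨β, hβ⟩ := extend B hB.1 hB.2
  obtain ⟨γ, hγ⟩ := extend C hC.1 hC.2
  obtain ⟨δ, hδ⟩ := extend D hD.1 hD.2
  obtain ⟨p, hp⟩ := extend P hP.1 hP.2
  obtain ⟨q, hq⟩ := extend Q hQ.1 hQ.2
  obtain ⟨r, hr⟩ := extend R hR.1 hR.2
  obtain ⟨s, hs⟩ := extend S hS.1 hS.2
  obtain ⟨a, b, c, d, e, h1, h2, h3, h4, h5, h6, h7, h8⟩ := wheel_perm
    ((α.trans p).trans β.symm) ((β.trans q).trans γ.symm) ((γ.trans r).trans δ.symm)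
    ((δ.trans s).trans α.symm)
  simp only [Equiv.trans_apply] at h5 h6 h7 h8
  refine ⟨a, α b, β c, γ d, δ e, fun h => ?_, fun h => ?_, fun h => ?_, fun h => ?_, fun h => ?_,
    fun h => ?_, fun h => ?_, fun h => ?_⟩
  · exact h1 (α.injective (hα _ _ h)).symm
  · exact h2 (β.injective (hβ _ _ h)).symm
  · exact h3 (γ.injective (hγ _ _ h)).symm
  · exact h4 (δ.injective (hδ _ _ h)).symm
  · exact h5 (by rw [hp _ _ h, Equiv.symm_apply_apply])
  · exact h6 (by rw [hq _ _ h, Equiv.symm_apply_apply])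
  · exact h7 (by rw [hr _ _ h, Equiv.symm_apply_apply])
  · exact h8 (by rw [hs _ _ h, Equiv.symm_apply_apply])

/-! ### Choices in a cover -/

section
variable {V W : Type} [Finite W] {G : SimpleGraph V} {H : SimpleGraph W} {L : V → Set W}

theorem avoid (hc : IsCover G H L) {u v : V} (huv : G.Adj u v) {a : W} (ha : a ∈ L u) {X : Set W}
    (hX : X ⊆ L v) {n : ℕ} (hn : n + 1 ≤ X.ncard) : n ≤ {b ∈ X | ¬ H.Adj a b}.ncard := by
  have h1 : X ⊆ {b ∈ X | ¬ H.Adj a b} ∪ {b ∈ X | H.Adj a b} := by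
    intro b hb
    by_cases h : H.Adj a b
    · exact Or.inr ⟨hb, h⟩
    · exact Or.inl ⟨hb, h⟩
  have h2 : X.ncard ≤ ({b ∈ X | ¬ H.Adj a b} ∪ {b ∈ X | H.Adj a b}).ncard :=
    Set.ncard_le_ncard h1 (Set.toFinite _)
  have h3 := Set.ncard_union_le {b ∈ X | ¬ H.Adj a b} {b ∈ X | H.Adj a b}
  have h4 : {b ∈ X | H.Adj a b}.ncard ≤ 1 := by
    rw [Set.ncard_le_one (Set.toFinite _)]
    rintro b ⟨hb, hb'⟩ c ⟨hc1, hc'⟩
    exact hc.matching u v huv a ha b (hX hb) c (hX hc1) hb' hc'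
  omega

theorem pick3 {S : Set W} (h : 3 ≤ S.ncard) :
    ∃ e : Fin 3 → W, Function.Injective e ∧ ∀ i, e i ∈ S := by
  classical
  have := Fintype.ofFinite S
  obtain ⟨f⟩ : Nonempty (Fin 3 ↪ S) := Function.Embedding.nonempty_of_card_le (by
    rw [Fintype.card_fin, ← Nat.card_eq_fintype_card, Nat.card_coe_set_eq]
    exact h)
  exact ⟨fun i => (f i : W), fun i j hij => f.injective (Subtype.ext hij), fun i => (f i).2⟩

omit [Finite W] in
theorem mat (hc : IsCover G H L) {u v : V} (huv : G.Adj u v) {e f : Fin 3 → W}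
    (he : Function.Injective e) (hf : Function.Injective f) (heL : ∀ i, e i ∈ L u)
    (hfL : ∀ i, f i ∈ L v) : Mat fun i j => H.Adj (e i) (f j) :=
  ⟨fun i _ _ hj hk => hf (hc.matching u v huv _ (heL i) _ (hfL _) _ (hfL _) hj hk),
    fun i _ _ hj hk => he (hc.matching v u huv.symm _ (hfL i) _ (heL _) _ (heL _) hj.symm hk.symm)⟩

omit [Finite W] in
theorem indep_of_choice (hc : IsCover G H L) {f : V → W} (hf : ∀ u, f u ∈ L u)
    (hf' : ∀ u v, G.Adj u v → ¬ H.Adj (f u) (f v)) :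
    ∃ I : Set W, H.IsIndepSet I ∧ I.ncard = Nat.card V := by
  have hinj : Function.Injective f := by
    intro u v huv
    have h1 := hf v
    rw [← huv] at h1
    exact (hc.partition (f u)).unique (hf u) h1
  refine ⟨Set.range f, ?_, ?_⟩
  · rintro _ ⟨u, rfl⟩ _ ⟨v, rfl⟩ huv
    by_cases h : G.Adj u v
    · exact hf' u v h
    · exact hc.nonadjacent u v (fun h' => huv (by rw [h'])) h _ (hf u) _ (hf v)
  · rw [← Set.image_univ, Set.ncard_image_of_injective _ hinj, Set.ncard_univ]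

end

/-! ### The graph -/

/-- the edges of the complement -/
def N : List (Fin 8 × Fin 8) := [(0, 3), (1, 3), (2, 3), (4, 5), (6, 7)]

/-- The complement of a star with three leaves and two disjoint edges. -/
def G : SimpleGraph (Fin 8) where
  Adj u v := u ≠ v ∧ (u, v) ∉ N ∧ (v, u) ∉ N
  symm := ⟨fun _ _ h => ⟨h.1.symm, h.2.2, h.2.1⟩⟩
  loopless := ⟨fun _ h => h.1 rfl⟩

instance : DecidableRel G.Adj := fun u v =>
  inferInstanceAs (Decidable (u ≠ v ∧ (u, v) ∉ N ∧ (v, u) ∉ N))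

theorem choice5 {W : Type} [Finite W] {H : SimpleGraph W} {L : Fin 8 → Set W}
    (hc : IsCover G H L) (h5 : ∀ u, (L u).ncard = 5) :
    ∃ f : Fin 8 → W, (∀ u, f u ∈ L u) ∧ ∀ u v, G.Adj u v → ¬ H.Adj (f u) (f v) := by
  have hne : (L 1).Nonempty := by
    rw [← Set.ncard_pos (Set.toFinite _), h5 1]
    norm_num
  obtain ⟨b1, hb1⟩ := hne
  have hne2 : {x ∈ L 2 | ¬ H.Adj b1 x}.Nonempty := by
    rw [← Set.ncard_pos (Set.toFinite _)]
    exact lt_of_lt_of_le (by norm_num : 0 < 4)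
      (avoid hc (show G.Adj 1 2 by decide) hb1 subset_rfl (by rw [h5 2]))
  obtain ⟨b2, hb2, hb12⟩ := hne2
  have hS : ∀ v : Fin 8, G.Adj 1 v → G.Adj 2 v →
      ∃ e : Fin 3 → W, Function.Injective e ∧ (∀ i, e i ∈ L v) ∧ (∀ i, ¬ H.Adj b1 (e i)) ∧
        ∀ i, ¬ H.Adj b2 (e i) := by
    intro v h1 h2
    have h3 : 4 ≤ {x ∈ L v | ¬ H.Adj b1 x}.ncard :=
      avoid hc h1 hb1 subset_rfl (by rw [h5 v])
    have h4 : 3 ≤ {x ∈ {x ∈ L v | ¬ H.Adj b1 x} | ¬ H.Adj b2 x}.ncard :=
      avoid hc h2 hb2 (fun x hx => hx.1) h3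
    obtain ⟨e, he, he'⟩ := pick3 h4
    exact ⟨e, he, fun i => (he' i).1.1, fun i => (he' i).1.2, fun i => (he' i).2⟩
  obtain ⟨e0, i0, m0, x0, y0⟩ := hS 0 (by decide) (by decide)
  obtain ⟨e4, i4, m4, x4, y4⟩ := hS 4 (by decide) (by decide)
  obtain ⟨e5, i5, m5, x5, y5⟩ := hS 5 (by decide) (by decide)
  obtain ⟨e6, i6, m6, x6, y6⟩ := hS 6 (by decide) (by decide)
  obtain ⟨e7, i7, m7, x7, y7⟩ := hS 7 (by decide) (by decide)
  obtain ⟨a, b, c, d, e, h1, h2, h3, h4, k1, k2, k3, k4⟩ := wheel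
    (mat hc (show G.Adj 0 4 by decide) i0 i4 m0 m4) (mat hc (show G.Adj 0 6 by decide) i0 i6 m0 m6)
    (mat hc (show G.Adj 0 5 by decide) i0 i5 m0 m5) (mat hc (show G.Adj 0 7 by decide) i0 i7 m0 m7)
    (mat hc (show G.Adj 4 6 by decide) i4 i6 m4 m6) (mat hc (show G.Adj 6 5 by decide) i6 i5 m6 m5)
    (mat hc (show G.Adj 5 7 by decide) i5 i7 m5 m7) (mat hc (show G.Adj 7 4 by decide) i7 i4 m7 m4)
  have t1 : 4 ≤ {x ∈ L 3 | ¬ H.Adj (e4 b) x}.ncard :=
    avoid hc (show G.Adj 4 3 by decide) (m4 b) subset_rfl (by rw [h5 3])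
  have t2 : 3 ≤ {x ∈ {x ∈ L 3 | ¬ H.Adj (e4 b) x} | ¬ H.Adj (e5 d) x}.ncard :=
    avoid hc (show G.Adj 5 3 by decide) (m5 d) (fun x hx => hx.1) t1
  have t3 : 2 ≤ {x ∈ {x ∈ {x ∈ L 3 | ¬ H.Adj (e4 b) x} | ¬ H.Adj (e5 d) x} |
      ¬ H.Adj (e6 c) x}.ncard :=
    avoid hc (show G.Adj 6 3 by decide) (m6 c) (fun x hx => hx.1.1) t2
  have t4 : 1 ≤ {x ∈ {x ∈ {x ∈ {x ∈ L 3 | ¬ H.Adj (e4 b) x} | ¬ H.Adj (e5 d) x} |
      ¬ H.Adj (e6 c) x} | ¬ H.Adj (e7 e) x}.ncard :=
    avoid hc (show G.Adj 7 3 by decide) (m7 e) (fun x hx => hx.1.1.1) t3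
  obtain ⟨s, ⟨⟨⟨hs, s4⟩, s5⟩, s6⟩, s7⟩ := (Set.ncard_pos (Set.toFinite _)).1
    (lt_of_lt_of_le Nat.zero_lt_one t4)
  have key : ∀ u v : Fin 8, u < v → G.Adj u v →
      ¬ H.Adj ((![e0 a, b1, b2, s, e4 b, e5 d, e6 c, e7 e] : Fin 8 → W) u)
        ((![e0 a, b1, b2, s, e4 b, e5 d, e6 c, e7 e] : Fin 8 → W) v) := by
    intro u v huv hG
    fin_cases u <;> fin_cases v <;>
      first
        | (exfalso; revert huv; decide)
        | (exfalso; revert hG; decide)
        | exact h1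
        | exact h2
        | exact h3
        | exact h4
        | exact k1
        | exact k2
        | exact k3
        | exact k4
        | exact hb12
        | exact x4 _
        | exact x5 _
        | exact x6 _
        | exact x7 _
        | exact y4 _
        | exact y5 _
        | exact y6 _
        | exact y7 _
        | exact fun h => x0 _ h.symm
        | exact fun h => y0 _ h.symm
        | exact fun h => s4 h.symm
        | exact fun h => s5 h.symm
        | exact fun h => s6 h.symm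
        | exact fun h => s7 h.symm
        | exact fun h => k2 h.symm
        | exact fun h => k4 h.symm
  refine ⟨![e0 a, b1, b2, s, e4 b, e5 d, e6 c, e7 e], ?_, ?_⟩
  · intro u
    fin_cases u
    · exact m0 a
    · exact hb1
    · exact hb2
    · exact hs
    · exact m4 b
    · exact m5 d
    · exact m6 c
    · exact m7 e
  · intro u v hG
    rcases lt_trichotomy u v with h | h | h
    · exact key u v h hG
    · exact absurd h hG.ne
    · exact fun h' => key v u h hG.symm h'.symm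

/-! ### Covers with constant matchings -/

/-- The cover of `G` by copies of one set `Fin m`, the same elements being joined. -/
def copies {V : Type} (G : SimpleGraph V) (m : ℕ) : SimpleGraph (V × Fin m) where
  Adj x y := (x.1 = y.1 ∧ x.2 ≠ y.2) ∨ (G.Adj x.1 y.1 ∧ x.2 = y.2)
  symm := ⟨by
    rintro x y (⟨h1, h2⟩ | ⟨h1, h2⟩)
    · exact Or.inl ⟨h1.symm, h2.symm⟩
    · exact Or.inr ⟨h1.symm, h2.symm⟩⟩
  loopless := ⟨by
    rintro x (⟨_, h2⟩ | ⟨h1, _⟩)
    · exact h2 rfl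
    · exact G.loopless.irrefl _ h1⟩

theorem ncard_fibre {V : Type} (m : ℕ) (u : V) : {x : V × Fin m | x.1 = u}.ncard = m := by
  have h : {x : V × Fin m | x.1 = u} = Set.range fun i : Fin m => (u, i) := by
    ext ⟨v, i⟩
    constructor
    · rintro rfl
      exact ⟨i, rfl⟩
    · rintro ⟨j, hj⟩
      exact (congrArg Prod.fst hj).symm
  rw [h, ← Set.image_univ, Set.ncard_image_of_injective _ (fun i j hij => congrArg Prod.snd hij),
    Set.ncard_univ, Nat.card_eq_fintype_card, Fintype.card_fin]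

theorem copies_cover {V : Type} (G : SimpleGraph V) (m : ℕ) :
    IsCover G (copies G m) fun u => {x | x.1 = u} where
  partition a := ⟨a.1, rfl, fun _ h => h.symm⟩
  complete u a ha b hb hab := by
    refine Or.inl ⟨ha.trans hb.symm, fun h => hab (Prod.ext (ha.trans hb.symm) h)⟩
  matching u v huv a ha b hb c hc h1 h2 := by
    have hne : ∀ x : V × Fin m, x.1 = v → ¬ (a.1 = x.1) := by
      intro x hx h
      rw [hx, show a.1 = u from ha] at h
      exact G.loopless.irrefl v (h ▸ huv)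
    rcases h1 with h1 | h1
    · exact absurd h1.1 (hne b hb)
    rcases h2 with h2 | h2
    · exact absurd h2.1 (hne c hc)
    exact Prod.ext ((show b.1 = v from hb).trans (show c.1 = v from hc).symm) (h1.2.symm.trans h2.2)
  nonadjacent u v huv hG a ha b hb h := by
    have ha' : a.1 = u := ha
    have hb' : b.1 = v := hb
    rcases h with h | h
    · exact huv (ha'.symm.trans (h.1.trans hb'))
    · rw [ha', hb'] at h
      exact hG h.1

theorem colouring_of {V : Type} [Finite V] {G : SimpleGraph V} {m : ℕ}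
    (h : ∀ (W : Type) [Finite W] (H : SimpleGraph W) (L : V → Set W), IsCover G H L →
      (∀ u, (L u).ncard = m) → ∃ I : Set W, H.IsIndepSet I ∧ I.ncard = Nat.card V) :
    Nonempty (G.Coloring (Fin m)) := by
  obtain ⟨I, hI, hcard⟩ := h (V × Fin m) (copies G m) _ (copies_cover G m) (ncard_fibre m)
  have hinj : Set.InjOn Prod.fst I := by
    intro x hx y hy hxy
    by_contra hne
    exact hI hx hy hne (Or.inl ⟨hxy, fun h' => hne (Prod.ext hxy h')⟩)
  have himg : Prod.fst '' I = Set.univ := by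
    refine Set.eq_of_subset_of_ncard_le (Set.subset_univ _) ?_ (Set.toFinite _)
    rw [hinj.ncard_image, Set.ncard_univ, hcard]
  have hex : ∀ u : V, ∃ i : Fin m, (u, i) ∈ I := by
    intro u
    obtain ⟨x, hx, rfl⟩ : u ∈ Prod.fst '' I := by rw [himg]; trivial
    exact ⟨x.2, hx⟩
  choose g hg using hex
  refine ⟨SimpleGraph.Coloring.mk g ?_⟩
  intro u v huv hguv
  refine hI (hg u) (hg v) (fun h' => ?_) (Or.inr ⟨huv, hguv⟩)
  have h3 : u = v := congrArg Prod.fst h'
  exact G.loopless.irrefl v (h3 ▸ huv)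

theorem five_le {m : ℕ} (C : G.Coloring (Fin m)) : 5 ≤ m := by
  have h : G.IsClique (({0, 1, 2, 4, 6} : Finset (Fin 8)) : Set (Fin 8)) := by
    intro u hu v hv huv
    have hu' : u ∈ ({0, 1, 2, 4, 6} : Finset (Fin 8)) := hu
    have hv' : v ∈ ({0, 1, 2, 4, 6} : Finset (Fin 8)) := hv
    revert u v
    decide
  have h2 := h.card_le_of_coloring C
  rw [Fintype.card_fin] at h2
  exact le_trans (by decide) h2

theorem chiDP_G : chiDP G = 5 := by
  have h5 : 5 ∈ {m : ℕ | ∀ (W : Type) [Finite W] (H : SimpleGraph W) (L : Fin 8 → Set W),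
      IsCover G H L → (∀ u, (L u).ncard = m) →
      ∃ I : Set W, H.IsIndepSet I ∧ I.ncard = Nat.card (Fin 8)} := by
    intro W _ H L hc hL
    obtain ⟨f, hf, hf'⟩ := choice5 hc hL
    exact indep_of_choice hc hf hf'
  refine le_antisymm (Nat.sInf_le h5) ?_
  have h6 := Nat.sInf_mem ⟨5, h5⟩
  obtain ⟨C⟩ := colouring_of (G := G) (m := chiDP G) h6
  exact five_le C

/-! ### A cover with small independence number -/

/-- the pairs with the sign `1` -/
def O : List (Fin 8 × Fin 8) := [(1, 2), (1, 4), (1, 5), (1, 6), (1, 7), (2, 4), (2, 5), (2, 6),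
  (2, 7), (3, 5), (3, 7), (4, 6), (5, 7), (4, 7)]

/-- A 2-fold cover: for a pair with the sign `1` the same elements are joined, for the other edges
different ones. -/
def twist : SimpleGraph (Fin 8 × Fin 2) where
  Adj x y := (x.1 = y.1 ∧ x.2 ≠ y.2) ∨
    (G.Adj x.1 y.1 ∧ (x.2 = y.2 ↔ ((x.1, y.1) ∈ O ∨ (y.1, x.1) ∈ O)))
  symm := ⟨by
    rintro x y (⟨h1, h2⟩ | ⟨h1, h2⟩)
    · exact Or.inl ⟨h1.symm, h2.symm⟩
    · exact Or.inr ⟨h1.symm, by rw [eq_comm, or_comm]; exact h2⟩⟩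
  loopless := ⟨by
    rintro x (⟨_, h2⟩ | ⟨h1, _⟩)
    · exact h2 rfl
    · exact G.loopless.irrefl _ h1⟩

instance : DecidableRel twist.Adj := fun x y =>
  inferInstanceAs (Decidable ((x.1 = y.1 ∧ x.2 ≠ y.2) ∨
    (G.Adj x.1 y.1 ∧ (x.2 = y.2 ↔ ((x.1, y.1) ∈ O ∨ (y.1, x.1) ∈ O)))))

theorem twist_cover : IsCover G twist fun u => {x | x.1 = u} where
  partition a := ⟨a.1, rfl, fun _ h => h.symm⟩
  complete u a ha b hb hab := by
    refine Or.inl ⟨ha.trans hb.symm, fun h => hab (Prod.ext (ha.trans hb.symm) h)⟩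
  matching u v huv a ha b hb c hc h1 h2 := by
    have ha' : a.1 = u := ha
    have hb' : b.1 = v := hb
    have hc' : c.1 = v := hc
    have huv' : u ≠ v := huv.ne
    rcases h1 with h1 | h1
    · exact absurd (ha'.symm.trans (h1.1.trans hb')) huv'
    rcases h2 with h2 | h2
    · exact absurd (ha'.symm.trans (h2.1.trans hc')) huv'
    refine Prod.ext (hb'.trans hc'.symm) ?_
    have h3 : a.2 = b.2 ↔ a.2 = c.2 := by
      rw [h1.2, h2.2, hb', hc']
    generalize a.2 = i at h3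
    generalize b.2 = j at h3 ⊢
    generalize c.2 = k at h3 ⊢
    revert i j k
    decide
  nonadjacent u v huv hG a ha b hb h := by
    have ha' : a.1 = u := ha
    have hb' : b.1 = v := hb
    rcases h with h | h
    · exact huv (ha'.symm.trans (h.1.trans hb'))
    · rw [ha', hb'] at h
      exact hG h.1

/-- different and not joined -/
def Q (a b : Fin 8 × Fin 2) : Bool := decide (a ≠ b ∧ ¬ twist.Adj a b)

theorem no_four_bool : ∀ a b c d : Fin 8 × Fin 2,
    (Q a b && Q a c && Q b c && Q a d && Q b d && Q c d) = false := by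
  decide +kernel

theorem no_four (a b : Fin 8 × Fin 2) (h1 : Q a b = true) (c : Fin 8 × Fin 2) (h2 : Q a c = true)
    (h3 : Q b c = true) (d : Fin 8 × Fin 2) (h4 : Q a d = true) (h5 : Q b d = true)
    (h6 : Q c d = true) : False := by
  have h := no_four_bool a b c d
  rw [h1, h2, h3, h4, h5, h6] at h
  exact Bool.noConfusion h

theorem Q_iff {a b : Fin 8 × Fin 2} (h : a ≠ b) (h' : ¬ twist.Adj a b) : Q a b = true :=
  decide_eq_true ⟨h, h'⟩

theorem indepNum_twist : twist.indepNum ≤ 3 := by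
  classical
  obtain ⟨s, hs⟩ := twist.exists_isNIndepSet_indepNum
  by_contra hcon
  rw [not_le, ← hs.card_eq] at hcon
  obtain ⟨a, ha⟩ : s.Nonempty := Finset.card_pos.1 (by omega)
  have h1 : 2 < (s.erase a).card := by
    rw [Finset.card_erase_of_mem ha]
    omega
  obtain ⟨b, c, d, hb, hc, hd, hbc, hbd, hcd⟩ := Finset.two_lt_card_iff.1 h1
  rw [Finset.mem_erase] at hb hc hd
  have hI := hs.isIndepSet
  exact no_four a b (Q_iff hb.1.symm (hI ha hb.2 hb.1.symm)) c
    (Q_iff hc.1.symm (hI ha hc.2 hc.1.symm)) (Q_iff hbc (hI hb.2 hc.2 hbc)) d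
    (Q_iff hd.1.symm (hI ha hd.2 hd.1.symm)) (Q_iff hbd (hI hb.2 hd.2 hbd))
    (Q_iff hcd (hI hc.2 hd.2 hcd))

theorem three_le {W : Type} [Finite W] {H : SimpleGraph W} {L : Fin 8 → Set W}
    (hc : IsCover G H L) (h2 : ∀ u, (L u).ncard = 2) : 3 ≤ H.indepNum := by
  classical
  have := Fintype.ofFinite W
  obtain ⟨a, ha⟩ : (L 0).Nonempty := by
    rw [← Set.ncard_pos (Set.toFinite _), h2 0]
    norm_num
  obtain ⟨b, hb, hab⟩ : {x ∈ L 4 | ¬ H.Adj a x}.Nonempty := by
    rw [← Set.ncard_pos (Set.toFinite _)]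
    exact lt_of_lt_of_le (by norm_num : 0 < 1)
      (avoid hc (show G.Adj 0 4 by decide) ha subset_rfl (by rw [h2 4]))
  obtain ⟨c, hc', hac⟩ : {x ∈ L 5 | ¬ H.Adj a x}.Nonempty := by
    rw [← Set.ncard_pos (Set.toFinite _)]
    exact lt_of_lt_of_le (by norm_num : 0 < 1)
      (avoid hc (show G.Adj 0 5 by decide) ha subset_rfl (by rw [h2 5]))
  have hbc : ¬ H.Adj b c := hc.nonadjacent 4 5 (by decide) (by decide) b hb c hc'
  have d1 : ∀ {u v : Fin 8} {x y : W}, x ∈ L u → y ∈ L v → u ≠ v → x ≠ y := by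
    intro u v x y hx hy huv hxy
    rw [← hxy] at hy
    exact huv ((hc.partition x).unique hx hy)
  have e1 : a ≠ b := d1 ha hb (by decide)
  have e2 : a ≠ c := d1 ha hc' (by decide)
  have e3 : b ≠ c := d1 hb hc' (by decide)
  have h3 : H.IsIndepSet (({a, b, c} : Finset W) : Set W) := by
    intro x hx y hy hxy
    simp only [Finset.coe_insert, Finset.coe_singleton, Set.mem_insert_iff,
      Set.mem_singleton_iff] at hx hy
    rcases hx with rfl | rfl | rfl <;> rcases hy with rfl | rfl | rfl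
    · exact absurd rfl hxy
    · exact hab
    · exact hac
    · exact fun h => hab h.symm
    · exact absurd rfl hxy
    · exact hbc
    · exact fun h => hac h.symm
    · exact fun h => hbc h.symm
    · exact absurd rfl hxy
  have h4 := h3.card_le_indepNum
  rwa [Finset.card_eq_three.2 ⟨a, b, c, e1, e2, e3, rfl⟩] at h4

theorem alphaDP_G : alphaDP 2 G = 3 := by
  have h1 : twist.indepNum ∈ {a : ℕ | ∃ (W : Type) (_ : Finite W) (H : SimpleGraph W)
      (L : Fin 8 → Set W), IsCover G H L ∧ (∀ u, (L u).ncard = 2) ∧ a = H.indepNum} :=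
    ⟨Fin 8 × Fin 2, inferInstance, twist, _, twist_cover, ncard_fibre 2, rfl⟩
  refine le_antisymm (le_trans (Nat.sInf_le h1) indepNum_twist) ?_
  obtain ⟨W, _, H, L, hc, hL, h2⟩ := Nat.sInf_mem ⟨_, h1⟩
  have h3 := three_le hc hL
  rw [← h2] at h3
  exact h3

/-- There is a graph on 8 vertices with DP-chromatic number `5` and `α₂ = 3`, and
`3 < 2 * 8 / 5`. -/
theorem result : ∃ G : SimpleGraph (Fin 8), chiDP G = 5 ∧ alphaDP 2 G = 3 ∧ 3 < chiDP G ∧
    (alphaDP 2 G : ℝ) < 2 * (Nat.card (Fin 8) : ℝ) / (chiDP G : ℝ) := by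
  refine ⟨G, chiDP_G, alphaDP_G, by rw [chiDP_G]; norm_num, ?_⟩
  rw [chiDP_G, alphaDP_G, Nat.card_eq_fintype_card, Fintype.card_fin]
  norm_num

end Pool.Agent.Results.MP_f6aace_co.EightVertices
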